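import Pool.Agent.H8.UG.Targets
import Pool.Agent.H11.UBG.RSF

/-! # Row EMB: restriction reflects the order -/

set_option autoImplicit false

open CategoryTheory

namespace Pool.Agent.H54.UG

open Pool.Agent.H8.UB Pool.Agent.H8.UG Pool.Agent.H56.UDs

theorem pf_EMB : G_EMB := by
  intro S T _ _ _ f hf hr A B hA hB hAB
  obtain ⟨r, hl, hrr, h1⟩ := hr
  obtain ⟨c, rfl⟩ := Pool.Agent.H78.UB.pf_CDE S A hA
  obtain ⟨d, rfl⟩ := Pool.Agent.H78.UB.pf_CDE S B hB
  rw [Pool.Agent.H11.UBG.rsSub_fn, Pool.Agent.H11.UBG.rsSub_fn] at hAB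
  have hM : MC (c.map f) (d.map f) := ((Pool.Agent.H10.UB.pf_CDG T).2 _ _).1 hAB
  refine ((Pool.Agent.H10.UB.pf_CDG S).2 c d).2 ?_
  obtain ⟨p, q, z, e1, e2⟩ := hM
  refine ⟨fun i => r (p i), fun i t => r (q i t), fun j l => r (z j l), fun j => ?_, fun j t => ?_⟩
  · have h3 : f (d.a j) + ∑ i, f (d.b j i) * p i = ∑ l, z j l * f (c.a l) := e1 j
    have h4 := congrArg r h3
    rw [map_add, map_sum, map_sum] at h4
    simp only [hl, hrr] at h4
    have h5 : r (f (d.a j)) = d.a j := by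
      have h6 := hl (d.a j) 1
      rw [mul_one, h1, mul_one] at h6
      exact h6
    rw [h5] at h4
    exact h4
  · have h3 : ∑ i, f (d.b j i) * q i t = ∑ l, z j l * f (c.b l t) := e2 j t
    have h4 := congrArg r h3
    rw [map_sum, map_sum] at h4
    simp only [hl, hrr] at h4
    exact h4

end Pool.Agent.H54.UG
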